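import Mathlib

set_option autoImplicit false

namespace Pool.Agent.Results.MP_f8e529_co.MaximalityLowRank

namespace PMX

open Finset Matroid

section dc

variable {α : Type} [DecidableEq α]

lemma dc (F : Finset α) (B : Finset (Finset α)) :
    ∑ p ∈ F, (B.filter (fun Q => p ∈ Q)).card = ∑ Q ∈ B, (F ∩ Q).card := by
  have := Finset.sum_card_bipartiteAbove_eq_sum_card_bipartiteBelow (s := F) (t := B)
    (fun p Q => p ∈ Q)
  simp only [Finset.bipartiteAbove, Finset.bipartiteBelow, Finset.filter_mem_eq_inter] at this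
  exact this

end dc

variable {α : Type} {M : Matroid α}

lemma flat_inter {A B : Set α} (hA : M.IsFlat A) (hB : M.IsFlat B) : M.IsFlat (A ∩ B) := by
  rw [isFlat_iff_closure_eq]
  apply subset_antisymm
  · have h1 := M.closure_subset_closure (Set.inter_subset_left : A ∩ B ⊆ A)
    have h2 := M.closure_subset_closure (Set.inter_subset_right : A ∩ B ⊆ B)
    rw [hA.closure] at h1
    rw [hB.closure] at h2
    exact Set.subset_inter h1 h2
  · exact M.subset_closure _ (Set.inter_subset_left.trans hA.subset_ground)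

lemma flat_eq [M.Finite] {F G : Set α} (hF : M.IsFlat F) (hG : M.IsFlat G) (hFG : F ⊆ G)
    (hr : M.eRk G ≤ M.eRk F) : F = G := by
  have := (M.isRkFinite_set F).closure_eq_closure_of_subset_of_eRk_ge_eRk hFG hr
  rwa [hF.closure, hG.closure] at this

/-- the flats of a perfect matroid design, as finite sets indexed by their rank -/
structure FL {α : Type} [DecidableEq α] (E : Finset α) (Fl : ℕ → Finset (Finset α))
    (a : ℕ → ℕ) (r : ℕ) : Prop where
  sub : ∀ i, ∀ F ∈ Fl i, F ⊆ E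
  card : ∀ i, ∀ F ∈ Fl i, F.card = a i
  top : E ∈ Fl r
  bot : ∅ ∈ Fl 0
  /-- a flat and a point outside span a unique flat of the next rank -/
  span : ∀ i, ∀ A ∈ Fl i, ∀ e ∈ E, e ∉ A → ∃ D ∈ Fl (i + 1), A ⊆ D ∧ e ∈ D ∧
    ∀ j, ∀ C ∈ Fl j, A ⊆ C → e ∈ C → D ⊆ C
  inter : ∀ i, ∀ A ∈ Fl i, ∀ j, ∀ C ∈ Fl j, ∃ k, A ∩ C ∈ Fl k
  lt : ∀ i, ∀ A ∈ Fl i, ∀ j, ∀ C ∈ Fl j, A ⊂ C → i < j
  eq : ∀ i, ∀ A ∈ Fl i, ∀ C ∈ Fl i, A ⊆ C → A = C
  uniq : ∀ i j, ∀ A ∈ Fl i, A ∈ Fl j → i = j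
  one : a 1 = 1

theorem toFL [DecidableEq α] [M.Finite]
    (hP : ∀ F₁ F₂ : Set α, M.IsFlat F₁ → M.IsFlat F₂ → M.eRk F₁ = M.eRk F₂ →
          F₁.ncard = F₂.ncard)
    (h0 : ∀ F : Set α, M.IsFlat F → M.eRk F = 0 → F.ncard = 0)
    (h1 : ∀ F : Set α, M.IsFlat F → M.eRk F = 1 → F.ncard = 1)
    (r : ℕ) (hr : M.eRk M.E = r) (hr1 : 1 ≤ r) :
    ∃ (E : Finset α) (Fl : ℕ → Finset (Finset α)) (a : ℕ → ℕ), FL E Fl a r ∧ (E : Set α) = M.E ∧
      (∀ (i : ℕ) (F : Finset α), F ∈ Fl i ↔ M.IsFlat (F : Set α) ∧ M.eRk (F : Set α) = i) := by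
  classical
  have hfin : M.E.Finite := M.ground_finite
  let E : Finset α := hfin.toFinset
  have hE : (E : Set α) = M.E := hfin.coe_toFinset
  have hmemE : ∀ x, x ∈ E ↔ x ∈ M.E := fun x => by rw [← Finset.mem_coe, hE]
  let Fl : ℕ → Finset (Finset α) := fun i => E.powerset.filter
    (fun L => M.IsFlat (L : Set α) ∧ M.eRk (L : Set α) = i)
  let a : ℕ → ℕ := fun i => if h : (Fl i).Nonempty then (Classical.choose h).card else 0
  have hmem : ∀ L : Finset α, M.IsFlat (L : Set α) → L ∈ E.powerset := by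
    intro L hL
    rw [Finset.mem_powerset]
    intro x hx
    rw [hmemE]
    exact hL.subset_ground hx
  have hFl : ∀ (i : ℕ) (F : Finset α), F ∈ Fl i ↔ M.IsFlat (F : Set α) ∧ M.eRk (F : Set α) = i := by
    intro i L
    simp only [Fl, Finset.mem_filter]
    exact ⟨fun h => h.2, fun h => ⟨hmem L h.1, h⟩⟩
  have hcard : ∀ i, ∀ F ∈ Fl i, F.card = a i := by
    intro i F hF
    have hne : (Fl i).Nonempty := ⟨F, hF⟩
    have hc := Classical.choose_spec hne
    simp only [a, dif_pos hne]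
    rw [hFl] at hF hc
    have := hP _ _ hF.1 hc.1 (by rw [hF.2, hc.2])
    rwa [Set.ncard_coe_finset, Set.ncard_coe_finset] at this
  have hff : ∀ F : Set α, M.IsFlat F → F.Finite := fun F hF => hfin.subset hF.subset_ground
  have hnat : ∀ F : Finset α, M.IsFlat (F : Set α) → ∃ k, F ∈ Fl k := by
    intro F hF
    have h2 : M.eRk (F : Set α) ≠ ⊤ := by
      have h3 := M.eRk_mono hF.subset_ground
      rw [hr] at h3
      intro h4; rw [h4] at h3; exact absurd h3 (by simp)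
    obtain ⟨n, hn⟩ := ENat.ne_top_iff_exists.1 h2
    exact ⟨n, (hFl n F).2 ⟨hF, hn.symm⟩⟩
  have hbot : ∅ ∈ Fl 0 := by
    rw [hFl]
    have h2 := h0 (M.closure ∅) (isFlat_closure _) (by rw [eRk_closure_eq, eRk_empty])
    have h3 : M.closure ∅ = ∅ := (Set.ncard_eq_zero (hff _ (isFlat_closure _))).1 h2
    refine ⟨?_, ?_⟩
    · rw [Finset.coe_empty, isFlat_iff_closure_eq, h3]
    · rw [Finset.coe_empty, eRk_empty]; rfl
  have hspan : ∀ i, ∀ A ∈ Fl i, ∀ e ∈ E, e ∉ A → ∃ D ∈ Fl (i + 1), A ⊆ D ∧ e ∈ D ∧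
      ∀ j, ∀ C ∈ Fl j, A ⊆ C → e ∈ C → D ⊆ C := by
    intro i A hA e he heA
    rw [hFl] at hA
    rw [hmemE] at he
    have hcf := hff _ (isFlat_closure (M := M) (insert e (A : Set α)))
    have hs : insert e (A : Set α) ⊆ M.E := Set.insert_subset he hA.1.subset_ground
    refine ⟨hcf.toFinset, ?_, ?_, ?_, ?_⟩
    · rw [hFl, Set.Finite.coe_toFinset]
      refine ⟨isFlat_closure _, ?_⟩
      rw [eRk_closure_eq, eRk_insert_eq_add_one ⟨he, by
        rw [hA.1.closure]; exact fun h => heA (Finset.mem_coe.1 h)⟩, hA.2]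
      rfl
    · intro x hx
      rw [Set.Finite.mem_toFinset]
      exact M.subset_closure _ hs (Set.mem_insert_of_mem _ (Finset.mem_coe.2 hx))
    · rw [Set.Finite.mem_toFinset]; exact M.subset_closure _ hs (Set.mem_insert _ _)
    · intro j C hC hAC heC
      rw [hFl] at hC
      rw [← Finset.coe_subset, Set.Finite.coe_toFinset, ← hC.1.closure]
      exact M.closure_subset_closure (Set.insert_subset (Finset.mem_coe.2 heC)
        (Finset.coe_subset.2 hAC))
  refine ⟨E, Fl, a, ?_, hE, hFl⟩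
  constructor
  · intro i F hF
    exact Finset.mem_powerset.1 (hmem F ((hFl i F).1 hF).1)
  · exact hcard
  · rw [hFl, hE]; exact ⟨M.ground_isFlat, hr⟩
  · exact hbot
  · exact hspan
  · intro i A hA j C hC
    rw [hFl] at hA hC
    apply hnat
    rw [Finset.coe_inter]
    exact flat_inter hA.1 hC.1
  · intro i A hA j C hC hAC
    rw [hFl] at hA hC
    by_contra hji
    push Not at hji
    have h2 := flat_eq hA.1 hC.1 (Finset.coe_subset.2 hAC.1) (by
      rw [hA.2, hC.2]; exact_mod_cast hji)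
    have := Finset.coe_inj.1 h2
    rw [this] at hAC
    exact lt_irrefl _ hAC
  · intro i A hA C hC hAC
    rw [hFl] at hA hC
    have h2 := flat_eq hA.1 hC.1 (Finset.coe_subset.2 hAC) (by rw [hA.2, hC.2])
    exact Finset.coe_inj.1 h2
  · intro i j A hA hA'
    rw [hFl] at hA hA'
    have := hA.2.symm.trans hA'.2
    exact_mod_cast this
  ·
    have hEne : E.Nonempty := by
      rw [Finset.nonempty_iff_ne_empty]
      intro h2
      have h3 : M.E = ∅ := by rw [← hE, h2]; simp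
      rw [h3, eRk_empty] at hr
      have : r = 0 := by exact_mod_cast hr.symm
      omega
    obtain ⟨e, he⟩ := hEne
    obtain ⟨D, hD, -, -, -⟩ := hspan 0 ∅ hbot e he (by simp)
    rw [← hcard 1 D hD]
    rw [hFl] at hD
    have := h1 _ hD.1 (by rw [hD.2]; rfl)
    rwa [Set.ncard_coe_finset] at this

end PMX

namespace PMX

open Finset

/-- arithmetic for the first step -/
lemma ar1 {K x c N : ℤ} (hK : 2 ≤ K) (h1 : N * K = x * (1 + x * (K - 1)))
    (h2 : x * (c - 1) = K * c - 1)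
    (hc : 0 < c) (hcK : c ≤ K) : c = K ∧ x = K + 1 ∧ N = K * (K + 1) := by
  have hcop : IsCoprime K x := ⟨c, -(c - 1), by linear_combination -h2⟩
  have hd : K ∣ x * (x - 1) := ⟨x ^ 2 - N, by linear_combination h1⟩
  have hd2 : K ∣ x - 1 := hcop.dvd_of_dvd_mul_left hd
  have hd3 : K ∣ c := by
    obtain ⟨t, ht⟩ := hd2
    refine ⟨c - t * (c - 1), ?_⟩
    linear_combination h2 - (c - 1) * ht
  have h3 := Int.le_of_dvd hc hd3
  have hcK' : c = K := by omega
  subst hcK'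
  have hx : x = c + 1 := by
    have h0 : c - 1 ≠ 0 := by omega
    apply mul_right_cancel₀ h0
    linear_combination h2
  refine ⟨rfl, hx, ?_⟩
  have h0 : c ≠ 0 := by omega
  apply mul_right_cancel₀ h0
  rw [hx] at h1
  linear_combination h1

/-- arithmetic for the second step -/
lemma ar2 {n K N : ℤ} (hn : 2 ≤ n) (hK : 2 ≤ K)
    (h : N * (1 + n * (K - 1)) = (1 + n ^ 2 * (K - 1)) * (n * (n + 1))) : K = 2 := by
  obtain ⟨t, ht⟩ : ∃ t, t = 1 + n * (K - 1) := ⟨_, rfl⟩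
  have htn : IsCoprime t n := ⟨1, -(K - 1), by rw [ht]; ring⟩
  have hd : t ∣ n * ((n - 1) * (n + 1)) := by
    refine ⟨n * (n * (n + 1)) - N, ?_⟩
    rw [← ht] at h
    have e : 1 + n ^ 2 * (K - 1) = n * t - (n - 1) := by rw [ht]; ring
    rw [e] at h
    linear_combination h
  have hd2 : t ∣ (n - 1) * (n + 1) := htn.dvd_of_dvd_mul_left hd
  obtain ⟨j, hj⟩ := hd2
  have ht0 : 0 < t := by rw [ht]; nlinarith
  have hj0 : 0 < j := by
    have : 0 < t * j := by rw [← hj]; exact mul_pos (by omega) (by omega)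
    exact pos_of_mul_pos_right this ht0.le |> fun h => h
  have hnj : n ∣ j + 1 := by
    refine ⟨n - (K - 1) * j, ?_⟩
    rw [ht] at hj
    linear_combination -hj
  have h3 := Int.le_of_dvd (by omega) hnj
  have h4 : t * (n - 1) ≤ t * j := mul_le_mul_of_nonneg_left (by omega) ht0.le
  rw [← hj] at h4
  have h5 : (n - 1) * t ≤ (n - 1) * (n + 1) := by linarith
  have h6 : t ≤ n + 1 := le_of_mul_le_mul_left h5 (by omega)
  rw [ht] at h6
  have h7 : n * (K - 1) ≤ n * 1 := by linarith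
  have h8 : K - 1 ≤ 1 := le_of_mul_le_mul_left h7 (by omega)
  omega

namespace FL

variable {α : Type} [DecidableEq α] {E : Finset α} {Fl : ℕ → Finset (Finset α)} {a : ℕ → ℕ}
  {r : ℕ}

lemma a0 (h : FL E Fl a r) : a 0 = 0 := by rw [← h.card 0 ∅ h.bot]; simp

lemma Ecard (h : FL E Fl a r) : E.card = a r := h.card r E h.top

lemma exists_out (h : FL E Fl a r) {i : ℕ} (hi : i < r) {A : Finset α} (hA : A ∈ Fl i) :
    ∃ e ∈ E, e ∉ A := by
  by_contra hc
  push Not at hc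
  have : A = E := Finset.Subset.antisymm (h.sub i A hA) hc
  subst this
  have := h.uniq i r A hA h.top
  omega

lemma exists_fl (h : FL E Fl a r) : ∀ i ≤ r, (Fl i).Nonempty := by
  intro i
  induction i with
  | zero => intro _; exact ⟨∅, h.bot⟩
  | succ i ih =>
    intro hi
    obtain ⟨A, hA⟩ := ih (by omega)
    obtain ⟨e, he, heA⟩ := h.exists_out (by omega) hA
    obtain ⟨D, hD, -⟩ := h.span i A hA e he heA
    exact ⟨D, hD⟩

lemma a_succ (h : FL E Fl a r) {i : ℕ} (hi : i < r) : a i < a (i + 1) := by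
  obtain ⟨A, hA⟩ := h.exists_fl i hi.le
  obtain ⟨e, he, heA⟩ := h.exists_out hi hA
  obtain ⟨D, hD, h1, h2, -⟩ := h.span i A hA e he heA
  rw [← h.card i A hA, ← h.card (i + 1) D hD]
  exact Finset.card_lt_card ⟨h1, fun h3 => heA (h3 h2)⟩

lemma a_le (h : FL E Fl a r) {i j : ℕ} (hij : i ≤ j) (hj : j ≤ r) : a i ≤ a j := by
  induction j with
  | zero => have : i = 0 := by omega
            rw [this]
  | succ j ih =>
    rcases Nat.eq_or_lt_of_le hij with h1 | h1
    · rw [h1]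
    · exact (ih (by omega) (by omega)).trans (h.a_succ (by omega)).le

lemma a_lt (h : FL E Fl a r) {i j : ℕ} (hij : i < j) (hj : j ≤ r) : a i < a j :=
  (h.a_succ (by omega)).trans_le (h.a_le (by omega) hj)

/-- partition of an interval -/
lemma part (h : FL E Fl a r) {i j : ℕ} {A C : Finset α} (hA : A ∈ Fl i) (hC : C ∈ Fl j)
    (X : Finset α) :
    ∑ D ∈ (Fl (i + 1)).filter (fun D => A ⊆ D ∧ D ⊆ C), (X ∩ (D \ A)).card =
      (X ∩ (C \ A)).card ∨ ¬ A ⊆ C := by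
  by_cases hAC : A ⊆ C
  swap
  · right; exact hAC
  left
  have h1 := dc (X ∩ (C \ A)) ((Fl (i + 1)).filter (fun D => A ⊆ D ∧ D ⊆ C))
  have h2 : ∑ p ∈ X ∩ (C \ A), (((Fl (i + 1)).filter (fun D => A ⊆ D ∧ D ⊆ C)).filter
      (fun Q => p ∈ Q)).card = (X ∩ (C \ A)).card := by
    rw [Finset.sum_congr rfl (g := fun _ => 1), Finset.sum_const, smul_eq_mul, mul_one]
    intro p hp
    rw [mem_inter, mem_sdiff] at hp
    obtain ⟨D, hD, h3, h4, h5⟩ := h.span i A hA p (h.sub j C hC hp.2.1) hp.2.2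
    rw [Finset.card_eq_one]
    refine ⟨D, ?_⟩
    ext D'
    simp only [mem_filter, mem_singleton]
    constructor
    · rintro ⟨⟨h6, h7, h8⟩, h9⟩
      exact (h.eq (i + 1) D hD D' h6 (h5 (i + 1) D' h6 h7 h9)).symm
    · rintro rfl
      exact ⟨⟨hD, h3, h5 j C hC hAC hp.2.1⟩, h4⟩
  rw [← h2, h1]
  apply Finset.sum_congr rfl
  intro D hD
  rw [mem_filter] at hD
  congr 1
  ext y
  simp only [mem_inter, mem_sdiff]
  constructor
  · rintro ⟨h1, h2, h3⟩; exact ⟨⟨h1, hD.2.2 h2, h3⟩, h2⟩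
  · rintro ⟨⟨h1, h2, h3⟩, h4⟩; exact ⟨h1, h4, h3⟩

/-- flats of rank `s` above a flat -/
lemma hyp (h : FL E Fl a r) {i s N : ℕ} {A : Finset α} (hA : A ∈ Fl i)
    (hN : ∀ D ∈ Fl (i + 1), ((Fl s).filter (fun H => D ⊆ H)).card = N)
    {X : Finset α} (hX : X ⊆ E) :
    ∑ H ∈ (Fl s).filter (fun H => A ⊆ H), (X ∩ (H \ A)).card = (X \ A).card * N := by
  have h1 := dc (X \ A) ((Fl s).filter (fun H => A ⊆ H))
  have h2 : ∑ p ∈ X \ A, (((Fl s).filter (fun H => A ⊆ H)).filter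
      (fun Q => p ∈ Q)).card = (X \ A).card * N := by
    rw [Finset.sum_congr rfl (g := fun _ => N), Finset.sum_const, smul_eq_mul]
    intro p hp
    rw [mem_sdiff] at hp
    obtain ⟨D, hD, h3, h4, h5⟩ := h.span i A hA p (hX hp.1) hp.2
    rw [← hN D hD]
    congr 1
    ext D'
    simp only [mem_filter]
    constructor
    · rintro ⟨⟨h6, h7⟩, h9⟩
      exact ⟨h6, h5 s D' h6 h7 h9⟩
    · rintro ⟨h6, h7⟩
      exact ⟨⟨h6, h3.trans h7⟩, h7 h4⟩
  rw [← h2, h1]
  apply Finset.sum_congr rfl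
  intro D hD
  rw [mem_filter] at hD
  congr 1
  ext y
  simp only [mem_inter, mem_sdiff]
  tauto

lemma N_step (h : FL E Fl a r) {i s N : ℕ} {A : Finset α} (hA : A ∈ Fl i)
    (hN : ∀ D ∈ Fl (i + 1), ((Fl s).filter (fun H => D ⊆ H)).card = N) :
    ((Fl s).filter (fun H => A ⊆ H)).card * (a s - a i) = (a r - a i) * N := by
  have h1 := h.hyp hA hN (X := E) (Finset.Subset.refl _)
  rw [card_sdiff_of_subset (h.sub i A hA), h.Ecard, h.card i A hA] at h1
  rw [← h1, Finset.sum_congr rfl (g := fun _ => a s - a i), Finset.sum_const, smul_eq_mul]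
  intro H hH
  rw [mem_filter] at hH
  rw [← h.card s H hH.1, ← h.card i A hA, ← card_sdiff_of_subset hH.2]
  congr 1
  rw [Finset.inter_eq_right]
  exact Finset.sdiff_subset.trans (h.sub s H hH.1)

lemma N_one (h : FL E Fl a r) (s : ℕ) : ∀ D ∈ Fl s, ((Fl s).filter (fun H => D ⊆ H)).card = 1 := by
  intro D hD
  rw [Finset.card_eq_one]
  refine ⟨D, ?_⟩
  ext D'
  simp only [mem_filter, mem_singleton]
  constructor
  · rintro ⟨h1, h2⟩; exact (h.eq s D hD D' h1 h2).symm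
  · rintro rfl; exact ⟨hD, Finset.Subset.refl _⟩

/-- number of flats between -/
lemma btw (h : FL E Fl a r) {i j : ℕ} {A C : Finset α} (hA : A ∈ Fl i) (hC : C ∈ Fl j)
    (hAC : A ⊆ C) :
    ((Fl (i + 1)).filter (fun D => A ⊆ D ∧ D ⊆ C)).card * (a (i + 1) - a i) = a j - a i := by
  have h1 := (h.part hA hC C).resolve_right (fun h2 => h2 hAC)
  rw [Finset.inter_eq_right.2 Finset.sdiff_subset, card_sdiff_of_subset hAC, h.card i A hA,
    h.card j C hC] at h1
  rw [← h1, Finset.sum_congr rfl (g := fun _ => a (i + 1) - a i), Finset.sum_const, smul_eq_mul]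
  intro D hD
  rw [mem_filter] at hD
  rw [← h.card (i + 1) D hD.1, ← h.card i A hA, ← card_sdiff_of_subset hD.2.1]
  congr 1
  rw [Finset.inter_eq_right]
  exact Finset.sdiff_subset.trans hD.2.2

/-- flats properly contained -/
lemma card_lt_flat (h : FL E Fl a r) {i j : ℕ} (hi : i + 1 ≤ r) {X Y : Finset α} (hX : X ∈ Fl j)
    (hY : Y ∈ Fl (i + 1)) (hXY : X ⊆ Y) (hne : X ≠ Y) : X.card ≤ a i := by
  have h1 := h.lt j X hX (i + 1) Y hY (Finset.ssubset_iff_subset_ne.2 ⟨hXY, hne⟩)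
  rw [h.card j X hX]
  exact h.a_le (by omega) (by omega)

lemma mono (h : FL E Fl a r) {j : ℕ} (hj : j + 3 ≤ r)
    (hd : a (j + 3) - a (j + 2) = a (j + 2) - a (j + 1)) :
    a (j + 2) - a (j + 1) = a (j + 1) - a j := by
  have s0 := h.a_succ (i := j) (by omega)
  have s1 := h.a_succ (i := j + 1) (by omega)
  have s2 := h.a_succ (i := j + 2) (by omega)
  obtain ⟨A, hA⟩ := h.exists_fl j (by omega)
  obtain ⟨e1, he1, he1A⟩ := h.exists_out (by omega) hA
  obtain ⟨P1, hP1, hAP1, he1P1, hP1u⟩ := h.span j A hA e1 he1 he1A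
  obtain ⟨e2, he2, he2P⟩ := h.exists_out (by omega) hP1
  obtain ⟨F, hF, hPF, he2F, hFu⟩ := h.span (j + 1) P1 hP1 e2 he2 he2P
  obtain ⟨e3, he3, he3F⟩ := h.exists_out (by omega) hF
  obtain ⟨C, hC, hFC, he3C, hCu⟩ := h.span (j + 2) F hF e3 he3 he3F
  have hAF : A ⊆ F := hAP1.trans hPF
  have he3A : e3 ∉ A := fun h1 => he3F (hAF h1)
  obtain ⟨P, hP, hAP, he3P, hPu⟩ := h.span j A hA e3 he3 he3A
  have hPC : P ⊆ C := hPu (j + 3) C hC (hAF.trans hFC) he3C
  have hPF' : P ∩ F = A := by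
    obtain ⟨k, hk⟩ := h.inter (j + 1) P hP (j + 2) F hF
    have hne : P ∩ F ≠ P := by
      intro h1
      apply he3F
      have : e3 ∈ P ∩ F := by rw [h1]; exact he3P
      exact (mem_inter.1 this).2
    have h1 := h.lt k (P ∩ F) hk (j + 1) P hP
      (Finset.ssubset_iff_subset_ne.2 ⟨Finset.inter_subset_left, hne⟩)
    by_contra h2
    have h3 := h.lt j A hA k (P ∩ F) hk
      (Finset.ssubset_iff_subset_ne.2 ⟨Finset.subset_inter hAP hAF, Ne.symm h2⟩)
    omega
  have hb := h.btw hP hC hPC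
  have hb2 : ((Fl (j + 1 + 1)).filter (fun D => P ⊆ D ∧ D ⊆ C)).card = 2 := by
    have e : a (j + 3) - a (j + 1) = 2 * (a (j + 1 + 1) - a (j + 1)) := by
      show a (j + 3) - a (j + 1) = 2 * (a (j + 2) - a (j + 1))
      omega
    rw [e] at hb
    exact Nat.eq_of_mul_eq_mul_right (by omega) hb
  have hp := (h.part hP hC (F \ A)).resolve_right (fun h2 => h2 hPC)
  have q1 : ((F \ A) ∩ (C \ P)).card = a (j + 2) - a j := by
    rw [← h.card (j + 2) F hF, ← h.card j A hA, ← card_sdiff_of_subset hAF]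
    congr 1
    rw [Finset.inter_eq_left]
    intro y hy
    rw [mem_sdiff] at hy ⊢
    refine ⟨hFC hy.1, fun hyP => hy.2 ?_⟩
    rw [← hPF']; exact mem_inter.2 ⟨hyP, hy.1⟩
  have q2 : ∑ D ∈ (Fl (j + 1 + 1)).filter (fun D => P ⊆ D ∧ D ⊆ C), ((F \ A) ∩ (D \ P)).card ≤
      ∑ D ∈ (Fl (j + 1 + 1)).filter (fun D => P ⊆ D ∧ D ⊆ C), (a (j + 1) - a j) := by
    apply Finset.sum_le_sum
    intro D hD
    rw [mem_filter] at hD
    obtain ⟨k, hk⟩ := h.inter (j + 2) F hF (j + 2) D hD.1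
    have hne : F ∩ D ≠ F := by
      intro h1
      have h2 : F ⊆ D := Finset.inter_eq_left.1 h1
      have h3 := h.eq (j + 2) F hF D hD.1 h2
      apply he3F
      rw [h3]; exact hD.2.1 he3P
    have h4 := h.card_lt_flat (i := j + 1) (by omega) hk hF Finset.inter_subset_left hne
    have h5 : (F \ A) ∩ (D \ P) ⊆ (F ∩ D) \ A := by
      intro y hy
      simp only [mem_inter, mem_sdiff] at hy ⊢
      exact ⟨⟨hy.1.1, hy.2.1⟩, hy.1.2⟩
    refine (Finset.card_le_card h5).trans ?_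
    have hAs : A ⊆ F ∩ D := Finset.subset_inter hAF (hAP.trans hD.2.1)
    rw [card_sdiff_of_subset hAs, h.card j A hA]
    omega
  rw [hp, q1, Finset.sum_const, hb2, smul_eq_mul] at q2
  have he2A : e2 ∉ A := fun h1 => he2P (hAP1 h1)
  obtain ⟨Q, hQ, hAQ, he2Q, hQu⟩ := h.span j A hA e2 he2 he2A
  have hQF : Q ⊆ F := hQu (j + 2) F hF hAF he2F
  have hQP : Q ∩ P1 = A := by
    obtain ⟨k, hk⟩ := h.inter (j + 1) Q hQ (j + 1) P1 hP1
    have hne : Q ∩ P1 ≠ Q := by
      intro h1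
      apply he2P
      have : e2 ∈ Q ∩ P1 := by rw [h1]; exact he2Q
      exact (mem_inter.1 this).2
    have h1 := h.lt k (Q ∩ P1) hk (j + 1) Q hQ
      (Finset.ssubset_iff_subset_ne.2 ⟨Finset.inter_subset_left, hne⟩)
    by_contra h2
    have h3 := h.lt j A hA k (Q ∩ P1) hk
      (Finset.ssubset_iff_subset_ne.2 ⟨Finset.subset_inter hAQ hAP1, Ne.symm h2⟩)
    omega
  have h6 : Q \ A ⊆ F \ P1 := by
    intro y hy
    rw [mem_sdiff] at hy ⊢
    refine ⟨hQF hy.1, fun h7 => hy.2 ?_⟩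
    rw [← hQP]; exact mem_inter.2 ⟨hy.1, h7⟩
  have h7 := Finset.card_le_card h6
  rw [card_sdiff_of_subset hAQ, card_sdiff_of_subset hPF, h.card (j + 1) Q hQ, h.card j A hA,
    h.card (j + 1) P1 hP1, h.card (j + 2) F hF] at h7
  omega

lemma all_one (h : FL E Fl a r) {p : ℕ} (hp : p + 2 < r)
    (hd : a (p + 2) - a (p + 1) = a (p + 1) - a p) : a (p + 2) - a (p + 1) = 1 := by
  have h1 : ∀ q, q ≤ p → a (p - q + 2) - a (p - q + 1) = a (p - q + 1) - a (p - q) := by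
    intro q
    induction q with
    | zero => intro _; simpa using hd
    | succ q ih =>
      intro hq
      have h2 := ih (by omega)
      have e : p - q = (p - (q + 1)) + 1 := by omega
      rw [e] at h2
      exact h.mono (by omega) h2
  have h2 : ∀ q, q ≤ p + 1 → a (q + 1) - a q = 1 := by
    intro q
    induction q with
    | zero => intro _; rw [h.a0, h.one]
    | succ q ih =>
      intro hq
      have h3 := h1 (p - q) (by omega)
      have e : p - (p - q) = q := by omega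
      rw [e] at h3
      show a (q + 2) - a (q + 1) = 1
      rw [h3]
      exact ih (by omega)
  exact h2 (p + 1) le_rfl

end FL

end PMX

namespace PMX

open Finset

namespace FL

variable {α : Type} [DecidableEq α] {E : Finset α} {Fl : ℕ → Finset (Finset α)} {a : ℕ → ℕ}

/-- the main combinatorial statement -/
theorem main {ρ : ℕ} (h : FL E Fl a (ρ + 3)) {B G : Finset α} (hB : B ⊆ E)
    (hBk : B.card = a (ρ + 2)) (hG : G ∈ Fl ρ) (hGB : G ⊆ B)
    (hH : ∀ H ∈ Fl (ρ + 2), ∃ i ≤ ρ + 1, (B ∩ H).card = a i) : False := by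
  have s0 := h.a_succ (i := ρ) (by omega)
  have s1 : a (ρ + 1) < a (ρ + 2) := h.a_succ (i := ρ + 1) (by omega)
  have s2 : a (ρ + 2) < a (ρ + 3) := h.a_succ (i := ρ + 2) (by omega)
  obtain ⟨e0, he0B, he0G⟩ : ∃ e ∈ B, e ∉ G := by
    apply Finset.exists_mem_notMem_of_card_lt_card
    rw [h.card ρ G hG, hBk]; omega
  obtain ⟨F0, hF0, hGF0, he0F0, hF0u⟩ := h.span ρ G hG e0 (hB he0B) he0G
  obtain ⟨x, hx⟩ : ∃ x, x = ((Fl (ρ + 2)).filter (fun H => F0 ⊆ H)).card := ⟨_, rfl⟩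
  have hx0 := h.N_step hF0 (h.N_one (ρ + 2))
  rw [← hx, mul_one] at hx0
  have hxF : ∀ D ∈ Fl (ρ + 1), ((Fl (ρ + 2)).filter (fun H => D ⊆ H)).card = x := by
    intro D hD
    have h1 := h.N_step hD (h.N_one (ρ + 2))
    rw [mul_one, ← hx0] at h1
    exact Nat.eq_of_mul_eq_mul_right (by
      show 0 < a (ρ + 2) - a (ρ + 1)
      omega) h1
  obtain ⟨N, hN⟩ : ∃ N, N = ((Fl (ρ + 2)).filter (fun H => G ⊆ H)).card := ⟨_, rfl⟩
  have hN0 := h.N_step hG hxF
  rw [← hN] at hN0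
  have hx2 : 2 ≤ x := by
    have e1 : x * (a (ρ + 2) - a (ρ + 1)) = a (ρ + 3) - a (ρ + 1) := hx0
    by_contra hc
    have : x = 0 ∨ x = 1 := by omega
    rcases this with h1 | h1 <;> rw [h1] at e1 <;> omega
  have hbig : ∀ F ∈ Fl (ρ + 1), a ρ < (B ∩ F).card → ∀ H ∈ Fl (ρ + 2), F ⊆ H →
      (B ∩ H).card = a (ρ + 1) := by
    intro F hF hs H hHm hFH
    have h1 : (B ∩ F).card ≤ (B ∩ H).card :=
      Finset.card_le_card (Finset.inter_subset_inter_left hFH)
    obtain ⟨i, hi, h2⟩ := hH H hHm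
    have h3 : ρ < i := by
      by_contra hc
      have := h.a_le (i := i) (j := ρ) (by omega) (by omega)
      omega
    have : i = ρ + 1 := by omega
    rw [h2, this]
  have hsF : ∀ F ∈ Fl (ρ + 1), a ρ < (B ∩ F).card →
      x * (a (ρ + 1) - (B ∩ F).card) = a (ρ + 2) - (B ∩ F).card := by
    intro F hF hs
    have h1 := h.hyp hF (h.N_one (ρ + 2)) hB
    rw [mul_one, card_sdiff, hBk, Finset.inter_comm] at h1
    rw [← h1, ← hxF F hF, Finset.sum_congr rfl (g := fun _ => a (ρ + 1) - (B ∩ F).card),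
      Finset.sum_const, smul_eq_mul]
    intro H hHm
    rw [mem_filter] at hHm
    have hsub : B ∩ F ⊆ B ∩ H := Finset.inter_subset_inter_left hHm.2
    rw [← hbig F hF hs H hHm.1 hHm.2, ← card_sdiff_of_subset hsub]
    congr 1
    ext y
    simp only [mem_inter, mem_sdiff]
    tauto
  have hsle : ∀ F ∈ Fl (ρ + 1), (B ∩ F).card ≤ a (ρ + 1) := by
    intro F hF
    rw [← h.card (ρ + 1) F hF]
    exact Finset.card_le_card Finset.inter_subset_right
  obtain ⟨s, hs⟩ : ∃ s, s = (B ∩ F0).card := ⟨_, rfl⟩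
  have hsG : ∀ F, G ⊆ F → G ⊆ B ∩ F := fun F hF => Finset.subset_inter hGB hF
  have hs1 : a ρ < s := by
    rw [hs, ← h.card ρ G hG]
    apply Finset.card_lt_card
    refine ⟨hsG F0 hGF0, fun h1 => he0G (h1 (mem_inter.2 ⟨he0B, he0F0⟩))⟩
  have hs2 := hsle F0 hF0
  rw [← hs] at hs2
  have hs3 := hsF F0 hF0 (by rw [← hs]; exact hs1)
  rw [← hs] at hs3
  have hsc : ∀ F ∈ Fl (ρ + 1), a ρ < (B ∩ F).card → (B ∩ F).card = s := by
    intro F hF h1
    have h2 := hsF F hF h1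
    have h3 := hsle F hF
    zify [h3, (by omega : (B ∩ F).card ≤ a (ρ + 2))] at h2
    zify [hs2, (by omega : s ≤ a (ρ + 2))] at hs3
    have h5 : ((x : ℤ) - 1) * ((B ∩ F).card - s) = 0 := by linear_combination hs3 - h2
    rcases mul_eq_zero.1 h5 with h6 | h6 <;> omega
  have hcount : ∀ T : Finset (Finset α), (∀ F ∈ T, F ∈ Fl (ρ + 1) ∧ G ⊆ F) →
      ∑ F ∈ T, (B ∩ (F \ G)).card =
        (T.filter (fun F => a ρ < (B ∩ F).card)).card * (s - a ρ) := by
    intro T hT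
    rw [← Finset.sum_filter_add_sum_filter_not T (fun F => a ρ < (B ∩ F).card)]
    have e1 : ∀ F ∈ T, (B ∩ (F \ G)).card = (B ∩ F).card - a ρ := by
      intro F hF
      rw [← h.card ρ G hG, ← card_sdiff_of_subset (hsG F (hT F hF).2)]
      congr 1
      ext y
      simp only [mem_inter, mem_sdiff]
      tauto
    have e2 : ∑ F ∈ T.filter (fun F => a ρ < (B ∩ F).card), (B ∩ (F \ G)).card =
        (T.filter (fun F => a ρ < (B ∩ F).card)).card * (s - a ρ) := by
      rw [Finset.sum_congr rfl (g := fun _ => s - a ρ), Finset.sum_const, smul_eq_mul]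
      intro F hF
      rw [mem_filter] at hF
      rw [e1 F hF.1, hsc F (hT F hF.1).1 hF.2]
    have e3 : ∑ F ∈ T.filter (fun F => ¬ a ρ < (B ∩ F).card), (B ∩ (F \ G)).card = 0 := by
      apply Finset.sum_eq_zero
      intro F hF
      rw [mem_filter] at hF
      rw [e1 F hF.1]; omega
    rw [e2, e3, add_zero]
  obtain ⟨S, hS⟩ : ∃ S, S * (s - a ρ) = a (ρ + 2) - a ρ := by
    refine ⟨_, (hcount ((Fl (ρ + 1)).filter (fun F => G ⊆ F ∧ F ⊆ E)) (fun F hF => by
      rw [mem_filter] at hF; exact ⟨hF.1, hF.2.1⟩)).symm.trans ?_⟩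
    rw [(h.part hG h.top B).resolve_right (fun h2 => h2 (h.sub ρ G hG)), ← hBk, ← h.card ρ G hG,
      ← card_sdiff_of_subset hGB]
    congr 1
    ext y
    simp only [mem_inter, mem_sdiff]
    constructor
    · rintro ⟨h1, -, h3⟩; exact ⟨h1, h3⟩
    · rintro ⟨h1, h3⟩; exact ⟨h1, hB h1, h3⟩
  obtain ⟨H0, hH0⟩ : ((Fl (ρ + 2)).filter (fun H => F0 ⊆ H)).Nonempty := by
    rw [← Finset.card_pos, ← hx]; omega
  rw [mem_filter] at hH0
  have hGH0 : G ⊆ H0 := hGF0.trans hH0.2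
  have hH0c := hbig F0 hF0 (by rw [← hs]; exact hs1) H0 hH0.1 hH0.2
  set T0 := (Fl (ρ + 1)).filter (fun F => G ⊆ F ∧ F ⊆ H0) with hT0
  obtain ⟨c, hc⟩ : ∃ c, c = (T0.filter (fun F => a ρ < (B ∩ F).card)).card := ⟨_, rfl⟩
  obtain ⟨K, hK⟩ : ∃ K, K = T0.card := ⟨_, rfl⟩
  have hcK : c ≤ K := by rw [hc, hK]; exact Finset.card_filter_le _ _
  have hc1 : c * (s - a ρ) = a (ρ + 1) - a ρ := by
    rw [hc, ← hcount T0 (fun F hF => by rw [hT0, mem_filter] at hF; exact ⟨hF.1, hF.2.1⟩), hT0,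
      (h.part hG hH0.1 B).resolve_right (fun h2 => h2 hGH0), ← hH0c, ← h.card ρ G hG,
      ← card_sdiff_of_subset (hsG H0 hGH0)]
    congr 1
    ext y
    simp only [mem_inter, mem_sdiff]
    tauto
  have hK1 : K * (a (ρ + 1) - a ρ) = a (ρ + 2) - a ρ := by
    rw [hK, hT0]; exact h.btw hG hH0.1 hGH0
  have hK2 : 2 ≤ K := by
    by_contra hcon
    have : K = 0 ∨ K = 1 := by omega
    rcases this with h1 | h1 <;> rw [h1] at hK1 <;> omega
  have hx0' : x * (a (ρ + 2) - a (ρ + 1)) = a (ρ + 3) - a (ρ + 1) := hx0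
  zify [hs1.le, (by omega : a ρ ≤ a (ρ + 2))] at hS
  zify [hs1.le, s0.le] at hc1
  zify [s0.le, (by omega : a ρ ≤ a (ρ + 2))] at hK1
  zify [hs2, (by omega : s ≤ a (ρ + 2))] at hs3
  zify [s1.le, (by omega : a (ρ + 1) ≤ a (ρ + 3))] at hx0'
  zify [(by omega : a ρ ≤ a (ρ + 2)), (by omega : a ρ ≤ a (ρ + 3))] at hN0
  have ht0 : (s : ℤ) - a ρ ≠ 0 := by omega
  have hd0 : (a (ρ + 1) : ℤ) - a ρ ≠ 0 := by omega
  have hSK : (S : ℤ) = K * c := by
    apply mul_right_cancel₀ ht0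
    rw [hS, ← hK1, ← hc1]; ring
  have hSx : (x : ℤ) * (c - 1) = K * c - 1 := by
    rw [← hSK]
    apply mul_right_cancel₀ ht0
    linear_combination (x : ℤ) * hc1 - hS + hs3
  have hNK : (N : ℤ) * K = x * (1 + x * (K - 1)) := by
    apply mul_right_cancel₀ hd0
    linear_combination hN0 + ((N : ℤ) - x ^ 2) * hK1 - x * hx0'
  have hcpos : 0 < c := by
    rcases Nat.eq_zero_or_pos c with h0 | h0
    · rw [h0] at hc1
      simp only [Nat.cast_zero, zero_mul] at hc1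
      omega
    · exact h0
  obtain ⟨e1, e2, e3⟩ := ar1 (K := K) (x := x) (c := c) (N := N) (by omega) hNK hSx
    (by exact_mod_cast hcpos) (by exact_mod_cast hcK)
  have hdiff : a (ρ + 1) - a ρ = 1 := by
    rcases Nat.eq_zero_or_pos ρ with h0 | h0
    · subst h0
      rw [h.a0, h.one]
    obtain ⟨p, rfl⟩ : ∃ p, ρ = p + 1 := ⟨ρ - 1, by omega⟩
    have sp := h.a_succ (i := p) (by omega)
    obtain ⟨A, hA⟩ := h.exists_fl p (by omega)
    have hNall : ∀ D ∈ Fl (p + 1), ((Fl (p + 1 + 2)).filter (fun H => D ⊆ H)).card = N := by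
      intro D hD
      have h1 := h.N_step hD hxF
      have h2 := h.N_step hG hxF
      rw [← hN, ← h1] at h2
      exact (Nat.eq_of_mul_eq_mul_right (by omega) h2).symm
    have hN1 := h.N_step hA hNall
    obtain ⟨f1, hf1, hf1A⟩ := h.exists_out (by omega) hA
    obtain ⟨A1, hA1, hAA1, -, -⟩ := h.span p A hA f1 hf1 hf1A
    obtain ⟨f2, hf2, hf2A⟩ := h.exists_out (by omega) hA1
    obtain ⟨A2, hA2, hAA2, -, -⟩ := h.span (p + 1) A1 hA1 f2 hf2 hf2A
    have hL1 := h.btw hA hA2 (hAA1.trans hAA2)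
    obtain ⟨L, hL⟩ : ∃ L, L = ((Fl (p + 1)).filter (fun D => A ⊆ D ∧ D ⊆ A2)).card := ⟨_, rfl⟩
    rw [← hL] at hL1
    obtain ⟨Np, hNp⟩ : ∃ Np, Np = ((Fl (p + 1 + 2)).filter (fun H => A ⊆ H)).card := ⟨_, rfl⟩
    rw [← hNp] at hN1
    have hL2 : 2 ≤ L := by
      by_contra hcon
      have : L = 0 ∨ L = 1 := by omega
      rcases this with h1 | h1 <;> rw [h1] at hL1 <;> omega
    have hL1' : L * (a (p + 1) - a p) = a (p + 1 + 1) - a p := hL1
    zify [sp.le, (by omega : a p ≤ a (p + 1 + 1))] at hL1'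
    zify [(by omega : a p ≤ a (p + 1 + 2)), (by omega : a p ≤ a (p + 1 + 3))] at hN1
    have hd1 : (a (p + 1) : ℤ) - a p ≠ 0 := by omega
    have key : (Np : ℤ) * (1 + K * (L - 1)) = (1 + K ^ 2 * (L - 1)) * (K * (K + 1)) := by
      apply mul_right_cancel₀ hd1
      rw [e2] at hx0'
      rw [e3] at hN1
      have k1 : (a (p + 1 + 2) : ℤ) - a p = (a (p + 1) - a p) * (1 + K * (L - 1)) := by
        linear_combination (K : ℤ) * (-1) * hL1' - hK1
      have k2 : (a (p + 1 + 3) : ℤ) - a p = (a (p + 1) - a p) * (1 + K ^ 2 * (L - 1)) := by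
        linear_combination (-1 : ℤ) * (K : ℤ) ^ 2 * hL1' - hx0' - (K + 1) * hK1
      rw [k1, k2] at hN1
      linear_combination hN1
    have hLL := ar2 (n := K) (K := L) (N := Np) (by omega) (by omega) key
    rw [hLL] at hL1'
    have hfin : a (p + 1 + 1) - a (p + 1) = a (p + 1) - a p := by omega
    exact h.all_one (p := p) (by omega) hfin
  have : (K : ℤ) * (s - a ρ) = 1 := by
    rw [← e1, hc1]; omega
  have h9 : (K : ℤ) * (s - a ρ) ≥ 2 * 1 := mul_le_mul (by omega) (by omega) (by omega) (by omega)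
  omega

end FL

end PMX

open Matroid PMX

theorem result :
    ∀ (n : ℕ) (M : Matroid (Fin n)), M.E = Set.univ →
      (∀ F₁ F₂ : Set (Fin n), M.IsFlat F₁ → M.IsFlat F₂ → M.eRk F₁ = M.eRk F₂ →
        F₁.ncard = F₂.ncard) →
      (∀ F : Set (Fin n), M.IsFlat F → M.eRk F = 0 → F.ncard = 0) →
      (∀ F : Set (Fin n), M.IsFlat F → M.eRk F = 1 → F.ncard = 1) →
      ∀ B H₀ : Set (Fin n), M.IsFlat H₀ → M.eRk H₀ + 1 = M.eRk M.E →
        B.ncard = H₀.ncard →
        ¬ (M.IsFlat B ∧ M.eRk B + 1 = M.eRk M.E) →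
        (M.eRk M.E ≤ 4 ∨ ∃ G : Set (Fin n), G ⊆ B ∧ M.IsFlat G ∧ M.eRk G + 3 = M.eRk M.E) →
        ∃ H : Set (Fin n), M.IsFlat H ∧ M.eRk H + 1 = M.eRk M.E ∧
          ∀ F : Set (Fin n), M.IsFlat F → M.eRk F + 2 ≤ M.eRk M.E →
            (B ∩ H).ncard ≠ F.ncard := by
  classical
  intro n M hE hP h0 h1 B H₀ hH₀ hH₀r hBc hBn hcase
  have hMf : M.Finite := ⟨Set.toFinite _⟩
  have hsub : ∀ X : Set (Fin n), X ⊆ M.E := fun X => by rw [hE]; exact Set.subset_univ _
  have hrfin : M.eRk M.E ≠ ⊤ := by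
    intro h2
    have h3 := M.eRk_le_encard M.E
    rw [h2] at h3
    have := (Set.toFinite M.E).encard_lt_top
    exact absurd h3 (not_le.2 this)
  obtain ⟨r, hr⟩ := ENat.ne_top_iff_exists.1 hrfin
  rw [← hr] at hH₀r hBn hcase ⊢
  have hH₀fin : M.eRk H₀ ≠ ⊤ := by
    intro h2
    rw [h2, top_add] at hH₀r
    exact (ENat.natCast_ne_top _) hH₀r.symm
  obtain ⟨t, ht⟩ := ENat.ne_top_iff_exists.1 hH₀fin
  rw [← ht] at hH₀r
  have hrt : t + 1 = r := by exact_mod_cast hH₀r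
  by_contra hcon
  push Not at hcon
  have hr3 : 3 ≤ r := by
    by_contra hlt
    have hr12 : r = 1 ∨ r = 2 := by omega
    rcases hr12 with h2 | h2
    ·
      have ht0 : t = 0 := by omega
      have e1 : H₀.ncard = 0 := h0 H₀ hH₀ (by rw [← ht, ht0]; rfl)
      rw [e1] at hBc
      have hB0 : B = ∅ := (Set.ncard_eq_zero (Set.toFinite B)).1 hBc
      apply hBn
      have e2 := h0 (M.closure ∅) (isFlat_closure _) (by rw [eRk_closure_eq, eRk_empty])
      have e3 : M.closure ∅ = ∅ := (Set.ncard_eq_zero (Set.toFinite _)).1 e2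
      rw [hB0]
      refine ⟨?_, ?_⟩
      · rw [isFlat_iff_closure_eq, e3]
      · rw [eRk_empty, h2]; rfl
    ·
      have ht1 : t = 1 := by omega
      have e1 : H₀.ncard = 1 := h1 H₀ hH₀ (by rw [← ht, ht1]; rfl)
      rw [e1] at hBc
      obtain ⟨b, hb⟩ := Set.ncard_eq_one.1 hBc
      have hbcl : b ∈ M.closure {b} := M.subset_closure _ (hsub _) rfl
      have hle : M.eRk {b} ≤ 1 := M.eRk_singleton_le b
      have hne : M.eRk {b} ≠ 0 := by
        intro h3
        have e2 := h0 (M.closure {b}) (isFlat_closure _) (by rw [eRk_closure_eq, h3])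
        have e3 : M.closure {b} = ∅ := (Set.ncard_eq_zero (Set.toFinite _)).1 e2
        rw [e3] at hbcl
        exact hbcl
      have hr1 : M.eRk {b} = 1 := by
        apply le_antisymm hle
        exact Order.one_le_iff_ne_zero.2 hne
      have e2 := h1 (M.closure {b}) (isFlat_closure _) (by rw [eRk_closure_eq, hr1])
      obtain ⟨c, hc⟩ := Set.ncard_eq_one.1 e2
      rw [hc] at hbcl
      have hbc : b = c := hbcl
      apply hBn
      rw [hb]
      refine ⟨?_, ?_⟩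
      · rw [isFlat_iff_closure_eq, hc, hbc]
      · rw [hr1, h2]; rfl
  obtain ⟨ρ, rfl⟩ : ∃ ρ, r = ρ + 3 := ⟨r - 3, by omega⟩
  obtain ⟨E, Fl, a, hFL, hEE, hFl⟩ := toFL hP h0 h1 (ρ + 3) hr.symm (by omega)
  have hmem : ∀ (X : Set (Fin n)) (i : ℕ), M.IsFlat X → M.eRk X = i → X.toFinset ∈ Fl i := by
    intro X i h2 h3
    rw [hFl, Set.coe_toFinset]; exact ⟨h2, h3⟩
  have hH₀c : H₀.ncard = a (ρ + 2) := by
    have h2 := hmem H₀ (ρ + 2) hH₀ (by rw [← ht]; congr 1; omega)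
    rw [← hFL.card _ _ h2, Set.ncard_eq_toFinset_card']
  have hBk : B.toFinset.card = a (ρ + 2) := by
    rw [← hH₀c, ← hBc, Set.ncard_eq_toFinset_card']
  have hBE : B.toFinset ⊆ E := by
    intro x hx
    rw [← Finset.mem_coe, hEE, hE]; trivial
  have hG : ∃ G ∈ Fl ρ, G ⊆ B.toFinset := by
    rcases hcase with h2 | ⟨G, hGB, hG, hGr⟩
    · have h3 : ρ + 3 ≤ 4 := by exact_mod_cast h2
      have h4 : ρ = 0 ∨ ρ = 1 := by omega
      rcases h4 with h4 | h4
      · subst h4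
        exact ⟨∅, hFL.bot, Finset.empty_subset _⟩
      · subst h4
        have hpos : 0 < B.toFinset.card := by
          rw [hBk]
          have := hFL.a_lt (i := 0) (j := 1 + 2) (by omega) (by omega)
          omega
        obtain ⟨q, hq⟩ := Finset.card_pos.1 hpos
        obtain ⟨D, hD, -, hqD, -⟩ := hFL.span 0 ∅ hFL.bot q (hBE hq) (by simp)
        refine ⟨D, hD, ?_⟩
        have hc := hFL.card _ D hD
        rw [Finset.card_eq_one.1 (hc.trans hFL.one) |>.choose_spec] at hqD ⊢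
        rw [Finset.mem_singleton] at hqD
        rw [← hqD]
        exact Finset.singleton_subset_iff.2 hq
    · have hGfin : M.eRk G ≠ ⊤ := by
        intro h2
        rw [h2, top_add] at hGr
        exact (ENat.natCast_ne_top _) hGr.symm
      obtain ⟨g, hg⟩ := ENat.ne_top_iff_exists.1 hGfin
      rw [← hg] at hGr
      have hgr : g + 3 = ρ + 3 := by exact_mod_cast hGr
      refine ⟨G.toFinset, hmem G ρ hG (by rw [← hg]; congr 1; omega), ?_⟩
      exact Set.toFinset_subset_toFinset.2 hGB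
  obtain ⟨G, hGm, hGB⟩ := hG
  refine hFL.main hBE hBk hGm hGB ?_
  intro H hH
  have hH' := (hFl _ H).1 hH
  obtain ⟨F, hF, hFr, hFc⟩ := hcon H hH'.1 (by rw [hH'.2]; rfl)
  have hFfin : M.eRk F ≠ ⊤ := by
    intro h2
    rw [h2, top_add] at hFr
    exact absurd (top_le_iff.1 hFr) (ENat.natCast_ne_top _)
  obtain ⟨i, hi⟩ := ENat.ne_top_iff_exists.1 hFfin
  rw [← hi] at hFr
  have hir : i + 2 ≤ ρ + 3 := by exact_mod_cast hFr
  refine ⟨i, by omega, ?_⟩
  rw [← hFL.card i _ (hmem F i hF hi.symm)]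
  have e1 : (B.toFinset ∩ H).card = (B ∩ (H : Set (Fin n))).ncard := by
    rw [← Set.ncard_coe_finset]
    congr 1
    simp
  rw [e1, hFc, Set.ncard_eq_toFinset_card']

end Pool.Agent.Results.MP_f8e529_co.MaximalityLowRank
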